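import Pool.Agent.Helper61.LP.Sym
import Pool.Graph.R_seed8.TH898.LV.M

/-!
Monotonicity in `p`, the lower bound for symmetric bodies, comparison with the cube.
-/

set_option autoImplicit false

namespace Pool.Agent.Helper61.LP

open MeasureTheory Metric Set Filter Topology Pool.Agent.H604R2.FK
open scoped ENNReal Pointwise

variable {n : ℕ}

/-- the `L^p` Mahler volume is antitone in `p` -/
theorem Mlp_anti {K : Set (E n)} (hK : IsCompact K) (hi : (interior K).Nonempty) {p q : ℝ}
    (hp : 0 < p) (hpq : p ≤ q) : Mlp q K ≤ Mlp p K := by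
  have hq : 0 < q := hp.trans_le hpq
  have hV0 := vol_pos hi
  have hV1 : volume K < ⊤ := hK.measure_lt_top
  have hv : 0 < volume.real K := ENNReal.toReal_pos hV0.ne' hV1.ne
  unfold Mlp
  refine mul_le_mul_right (lintegral_mono fun y => ENNReal.ofReal_le_ofReal
    (Real.exp_le_exp.2 (neg_le_neg ?_))) _
  have hAp := AF_pos hK hi p y
  have hAq := AF_pos hK hi q y
  unfold AF at hAp hAq
  have h1 : 1 ≤ q / p := by rwa [le_div_iff₀ hp, one_mul]
  have hc : ConvexOn ℝ (Ici (0 : ℝ)) fun t : ℝ => t ^ (q / p) := convexOn_rpow h1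
  have hexp : ∀ x : E n, Real.exp (p * inner ℝ x y) ^ (q / p) = Real.exp (q * inner ℝ x y) := by
    intro x
    rw [← Real.exp_mul]
    congr 1
    field_simp
  have hJ := hc.map_set_average_le (μ := volume) (t := K)
    (f := fun x : E n => Real.exp (p * inner ℝ x y))
    (fun t _ => (Real.continuousAt_rpow_const t (q / p)
      (Or.inr (by positivity))).continuousWithinAt)
    isClosed_Ici hV0.ne' hV1.ne (by
      filter_upwards with x
      exact (Real.exp_pos _).le)
    ((by fun_prop : Continuous fun x : E n =>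
        Real.exp (p * inner ℝ x y)).continuousOn.integrableOn_compact hK)
    (by
      have : ((fun t : ℝ => t ^ (q / p)) ∘ fun x : E n => Real.exp (p * inner ℝ x y)) =
          fun x : E n => Real.exp (q * inner ℝ x y) := by
        ext x
        exact hexp x
      rw [this]
      exact (by fun_prop : Continuous fun x : E n =>
        Real.exp (q * inner ℝ x y)).continuousOn.integrableOn_compact hK)
  simp_rw [hexp] at hJ
  rw [setAverage_eq, setAverage_eq, smul_eq_mul, smul_eq_mul] at hJ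
  have e1 : ∀ t : ℝ, (volume.real K)⁻¹ * t = t / volume.real K := fun t => by
    rw [div_eq_inv_mul]
  rw [e1, e1] at hJ
  have hp1 : 0 < (∫ x in K, Real.exp (p * inner ℝ x y)) / volume.real K := by positivity
  have hlog := Real.log_le_log (by positivity) hJ
  rw [Real.log_rpow hp1] at hlog
  have : 1 / p * Real.log ((∫ x in K, Real.exp (p * inner ℝ x y)) / volume.real K) ≤
      1 / q * Real.log ((∫ x in K, Real.exp (q * inner ℝ x y)) / volume.real K) := by
    have h2 := mul_le_mul_of_nonneg_left hlog (by positivity : 0 ≤ 1 / q)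
    refine le_trans (le_of_eq ?_) h2
    field_simp
  linarith

/-- the rate `(4 (1 + 1/(2p)))^(1 + 1/(2p)) (p / 2π)^(1/(2p))` -/
noncomputable def rt (p : ℝ) : ℝ := (4 * al p) ^ al p * (p / (2 * Real.pi)) ^ (1 / (2 * p))

lemma al_pos {p : ℝ} (hp : 0 < p) : 0 < al p := by unfold al; positivity

lemma kap_pos {p : ℝ} (hp : 0 < p) : 0 < kap p := by
  have := al_pos hp
  unfold kap
  positivity

lemma rt_eq {p : ℝ} (hp : 0 < p) : rt p = kap p * 4 ^ al p := by
  have := al_pos hp
  unfold rt kap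
  rw [Real.mul_rpow (by norm_num) this.le]
  ring

lemma pow_rpow' {m : ℝ} (hm : 0 < m) (n : ℕ) (a : ℝ) :
    ENNReal.ofReal (m ^ n) ^ a = ENNReal.ofReal ((m ^ a) ^ n) := by
  rw [ENNReal.ofReal_rpow_of_pos (by positivity)]
  congr 1
  rw [← Real.rpow_natCast, ← Real.rpow_natCast, ← Real.rpow_mul hm.le, ← Real.rpow_mul hm.le,
    mul_comm]

/-- the inequality for bodies whose Mahler volume is at least `mⁿ` -/
theorem lower_of (hn : 0 < n) {K : Set (E n)} (hK : IsCompact K) (hc : Convex ℝ K)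
    (hi : (interior K).Nonempty) {p m : ℝ} (hp : 0 < p) (hm : 0 < m)
    (h : ENNReal.ofReal (m ^ n) ≤ Mi K) :
    ENNReal.ofReal ((kap p * m ^ al p) ^ n) ≤ Mlp p K := by
  have hk := kap_pos hp
  have ha := al_pos hp
  refine le_trans ?_ (lower hn hK hc hi hp)
  rw [mul_pow, ENNReal.ofReal_mul (by positivity), ← pow_rpow' hm]
  gcongr

/-- **the lower bound for symmetric bodies** -/
theorem sym_lower (hn : 0 < n) {K : Set (E n)} (hK : IsCompact K) (hc : Convex ℝ K)
    (hi : (interior K).Nonempty) (hs' : ∀ x ∈ K, -x ∈ K) {p q : ℝ} (hp : 0 < p) (hpq : p ≤ q) :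
    ENNReal.ofReal (rt q ^ n) ≤ Mlp p K := by
  refine le_trans ?_ (Mlp_anti hK hi hp hpq)
  rw [rt_eq (hp.trans_le hpq)]
  apply lower_of hn hK hc hi (hp.trans_le hpq) (by norm_num)
  refine le_trans (le_of_eq ?_) (sym_mahler hn hK hc hi hs')
  rw [ENNReal.ofReal_pow (by norm_num)]
  simp

/-- `4 < rt q` for `q ≥ 1` -/
lemma rt_gt {q : ℝ} (hq : 1 ≤ q) : 4 < rt q := by
  have hq0 : 0 < q := by linarith
  have ha := al_pos hq0
  have hpi := Real.pi_pos
  -- `rt q = 4 ((2q/π) (1 + 1/(2q))^(2q+1))^(1/(2q))`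
  have h1 : rt q = 4 * ((2 * q / Real.pi) * al q ^ (2 * q + 1)) ^ (1 / (2 * q)) := by
    unfold rt
    rw [Real.mul_rpow (by norm_num) ha.le, Real.mul_rpow (by positivity) (by positivity),
      ← Real.rpow_mul ha.le]
    have e1 : (2 * q + 1) * (1 / (2 * q)) = al q := by
      unfold al
      field_simp
    have e2 : (4 : ℝ) ^ al q = 4 * 4 ^ (1 / (2 * q)) := by
      unfold al
      rw [Real.rpow_add (by norm_num), Real.rpow_one]
    have e3 : (2 * q / Real.pi) ^ (1 / (2 * q)) =
        4 ^ (1 / (2 * q)) * (q / (2 * Real.pi)) ^ (1 / (2 * q)) := by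
      rw [← Real.mul_rpow (by norm_num) (by positivity)]
      congr 1
      field_simp
      ring
    rw [e1, e2, e3]
    ring
  have h2 : 2 ≤ al q ^ (2 * q + 1) := by
    have h3 := one_add_mul_self_le_rpow_one_add (s := 1 / (2 * q)) (p := 2 * q + 1)
      (by have : 0 < 1 / (2 * q) := by positivity
          linarith) (by linarith)
    unfold al
    refine le_trans ?_ h3
    have : (2 * q + 1) * (1 / (2 * q)) = 1 + 1 / (2 * q) := by field_simp
    rw [this]
    have : 0 < 1 / (2 * q) := by positivity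
    linarith
  have h4 : 1 < (2 * q / Real.pi) * al q ^ (2 * q + 1) := by
    have hpi4 := Real.pi_lt_four
    calc (1 : ℝ) < 2 * q / Real.pi * 2 := by
          rw [div_mul_eq_mul_div, lt_div_iff₀ hpi]
          linarith
      _ ≤ _ := by gcongr
  rw [h1]
  have h5 : 1 < ((2 * q / Real.pi) * al q ^ (2 * q + 1)) ^ (1 / (2 * q)) :=
    Real.one_lt_rpow h4 (by positivity)
  linarith

lemma al_one : al 1 = 3 / 2 := by unfold al; norm_num

/-- the value for `q = 1` -/
lemma rt_one : rt 1 = 6 * Real.sqrt (3 / Real.pi) := by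
  unfold rt
  rw [al_one]
  have hpi := Real.pi_pos
  have e1 : ((4 : ℝ) * (3 / 2)) ^ ((3 : ℝ) / 2) = 6 * Real.sqrt 6 := by
    rw [show (4 : ℝ) * (3 / 2) = 6 by norm_num, show (3 : ℝ) / 2 = 1 + 1 / 2 by norm_num,
      Real.rpow_add (by norm_num), Real.rpow_one, ← Real.sqrt_eq_rpow]
  have e2 : ((1 : ℝ) / (2 * Real.pi)) ^ ((1 : ℝ) / (2 * 1)) = Real.sqrt (1 / (2 * Real.pi)) := by
    rw [Real.sqrt_eq_rpow]
    norm_num
  rw [e1, e2, mul_assoc, ← Real.sqrt_mul (by norm_num)]
  congr 2
  field_simp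
  norm_num

open Pool.Agent.TH589.FF (cube) in
lemma cube_pow (n : ℕ) {p : ℝ} (hp : 0 < p) :
    Pool.Agent.TH589.FF.mahlerLp p (cube n) = Pool.Agent.TH589.FF.mahlerLp p (cube 1) ^ n := by
  have hM0 := Pool.Agent.TH898.LP.M0_pos hp
  rw [Pool.Agent.TH898.LV.cube_val n hp, Pool.Agent.TH898.LV.cube_val 1 hp, pow_one,
    ENNReal.ofReal_pow (by positivity)]

end Pool.Agent.Helper61.LP
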